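import Pool.Agent.W910.Hull.MATools
import Pool.Agent.Helper330.SRC.P_deltaSystem

/-!
# Finite incomparable subfamilies of a family of sets indexed by `ω₁`

`V : ω₁ → Set X` is a family of sets such that `V α` is not contained in `V β` for `α < β`. We show
that the preordered set of the finite incomparable subfamilies has the countable chain condition
in two cases (`ccc_of_closure`, `ccc_of_stable`).
-/

set_option autoImplicit false

namespace Pool.Agent.Y444.NB

open Set Cardinal Topology Pool.Agent.W684 Pool.Agent.W910.Hull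

/-! ### Sequences of length `ω₁` -/

section seq

variable {Y : Type*}

/-- the sequence in which every term is picked from the set of the previous ones -/
noncomputable def seq (pick : Set Y → Y) : Om1 → Y :=
  WellFounded.fix (wellFounded_lt (α := Om1)) fun α ih =>
    pick {y | ∃ β, ∃ h : β < α, ih β h = y}

theorem seq_eq (pick : Set Y → Y) (α : Om1) : seq pick α = pick (seq pick '' Iio α) := by
  unfold seq
  rw [WellFounded.fix_eq]
  congr 1
  ext y
  constructor
  · rintro ⟨β, h, rfl⟩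
    exact ⟨β, h, rfl⟩
  · rintro ⟨β, h, rfl⟩
    exact ⟨β, h, rfl⟩

theorem countable_Iio (α : Om1) : (Iio α).Countable := (countable_Iic α).mono Iio_subset_Iic_self

/-- Free sequences for set mappings with countable values. -/
theorem exists_free {W : Set Y} (hW : ¬ W.Countable) (bad : Y → Set Y)
    (hbad : ∀ y ∈ W, (W ∩ bad y).Countable) :
    ∃ g : Om1 → Y, (∀ α, g α ∈ W) ∧ ∀ α β, α < β → g β ∉ bad (g α) := by
  classical
  have hne : W.Nonempty := by
    rw [nonempty_iff_ne_empty]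
    rintro rfl
    exact hW countable_empty
  obtain ⟨w0, hw0⟩ := hne
  let pick : Set Y → Y := fun S => if h : ∃ w ∈ W, ∀ s ∈ S, w ∉ bad s then h.choose else w0
  have hW1 : ∀ α, seq pick α ∈ W := by
    intro α
    rw [seq_eq]
    by_cases h : ∃ w ∈ W, ∀ s ∈ seq pick '' Iio α, w ∉ bad s
    · simp only [pick, dif_pos h]
      exact h.choose_spec.1
    · simp only [pick, dif_neg h]
      exact hw0
  refine ⟨seq pick, hW1, fun α β hαβ => ?_⟩
  have h : ∃ w ∈ W, ∀ s ∈ seq pick '' Iio β, w ∉ bad s := by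
    by_contra hcon
    push Not at hcon
    apply hW
    refine (((countable_Iio β).image (seq pick)).biUnion (t := fun s _ => W ∩ bad s) ?_).mono ?_
    · rintro _ ⟨γ, _, rfl⟩
      exact hbad _ (hW1 γ)
    · intro w hw
      obtain ⟨s, hs, hws⟩ := hcon w hw
      exact mem_biUnion hs ⟨hw, hws⟩
  have h2 : seq pick β = h.choose := by
    rw [seq_eq]
    simp only [pick, dif_pos h]
  rw [h2]
  exact h.choose_spec.2 _ ⟨α, hαβ, rfl⟩

end seq

theorem not_countable_range {Y : Type*} {f : Om1 → Y} (hf : Function.Injective f) :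
    ¬ (range f).Countable := by
  intro h
  apply Pool.Agent.W910.Hull.not_countable_univ
  rw [← image_univ] at h
  exact countable_of_injective_of_countable_image hf.injOn h

/-! ### Incomparable families -/

section anti

variable {X : Type*}

/-- The sets `V a` (`a ∈ s`) are pairwise incomparable. -/
def Anti (V : Om1 → Set X) (s : Set Om1) : Prop := ∀ a ∈ s, ∀ b ∈ s, a ≠ b → ¬ V a ⊆ V b

/-- The finite incomparable subfamilies of the family `V`. -/
def Cond (V : Om1 → Set X) : Type := {s : Finset Om1 // Anti V (s : Set Om1)}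

instance (V : Om1 → Set X) : Preorder (Cond V) where
  le p q := q.1 ⊆ p.1
  le_refl p := Finset.Subset.refl _
  le_trans p q r h1 h2 := Finset.Subset.trans h2 h1

theorem Cond.le_def (V : Om1 → Set X) (p q : Cond V) : p ≤ q ↔ q.1 ⊆ p.1 := Iff.rfl

/-- If the preordered set of the finite incomparable subfamilies has the countable chain
condition, then Martin's axiom gives an uncountable incomparable subfamily. -/
theorem exists_anti (hMA : MartinAxiomAleph1) (V : Om1 → Set X) (h : IsCCC (Cond V)) :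
    ∃ Z : Set Om1, ¬ Z.Countable ∧ Anti V Z := by
  have hs : ∀ a : Om1, Anti V (({a} : Finset Om1) : Set Om1) := by
    intro a x hx y hy hxy
    rw [Finset.coe_singleton, mem_singleton_iff] at hx hy
    exact absurd (hx.trans hy.symm) hxy
  obtain ⟨G, hG, hunc⟩ := exists_filter_uncountable hMA h (fun a => (⟨{a}, hs a⟩ : Cond V))
  refine ⟨_, hunc, ?_⟩
  intro a ha b hb hab
  obtain ⟨r, _, h1, h2⟩ := hG _ ha _ hb
  rw [Cond.le_def] at h1 h2
  exact r.2 a (h1 (Finset.mem_singleton_self a)) b (h2 (Finset.mem_singleton_self b)) hab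

/-- If the countable chain condition fails, then there is a sequence of finite tuples as
follows. -/
theorem exists_tuples (V : Om1 → Set X) (hN : ∀ α β, α < β → ¬ V α ⊆ V β)
    (h : ¬ IsCCC (Cond V)) :
    ∃ (n : ℕ) (F : Om1 → Fin n → Om1), (∀ ξ η, ξ < η → ∀ i j, F ξ i < F η j) ∧
      ∀ ξ η, ξ < η → ∃ i j, V (F η j) ⊆ V (F ξ i) := by
  classical
  unfold IsCCC at h
  push Not at h
  obtain ⟨A, hA, hAunc⟩ := h
  obtain ⟨J, R, hJA, hJ, hR, hJR⟩ :=
    Pool.Agent.Helper330.SRC.dSys (fun p : Cond V => p.1) A hAunc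
  -- the cardinality is constant
  obtain ⟨n, hn⟩ : ∃ n : ℕ, ¬ {p ∈ J | (p.1 \ R).card = n}.Countable := by
    by_contra hcon
    push Not at hcon
    apply hJ
    refine (countable_iUnion hcon).mono ?_
    intro p hp
    exact mem_iUnion.2 ⟨_, hp, rfl⟩
  let J' : Set (Cond V) := {p ∈ J | (p.1 \ R).card = n}
  let bad : Cond V → Set (Cond V) := fun p =>
    {q | q = p ∨ ∃ a ∈ q.1 \ R, ∃ b ∈ p.1 \ R, a ≤ b}
  have hbad : ∀ p ∈ J', (J' ∩ bad p).Countable := by
    intro p _
    have h1 : (⋃ b ∈ (p.1 \ R : Finset Om1), Iic b).Countable :=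
      (Finset.countable_toSet (p.1 \ R)).biUnion fun b _ => countable_Iic b
    have h2 : ∀ c : Om1, {q ∈ J' | c ∈ q.1 \ R}.Countable := by
      intro c
      apply Set.Subsingleton.countable
      rintro q ⟨hq, hcq⟩ q' ⟨hq', hcq'⟩
      by_contra hne
      rw [Finset.mem_sdiff] at hcq hcq'
      exact hcq.2 (hJR q hq.1 q' hq'.1 hne c hcq.1 hcq'.1)
    refine ((countable_singleton p).union (h1.biUnion fun c _ => h2 c)).mono ?_
    rintro q ⟨hq, hq2⟩
    rcases hq2 with rfl | ⟨a, ha, b, hb, hab⟩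
    · exact Or.inl rfl
    · refine Or.inr (mem_biUnion (x := a) ?_ ⟨hq, ha⟩)
      exact mem_biUnion (x := b) hb hab
  obtain ⟨g, hg, hfree⟩ := exists_free hn bad hbad
  have hcard : ∀ ξ, ((g ξ).1 \ R).card = n := fun ξ => (hg ξ).2
  have hlt : ∀ ξ η, ξ < η → ∀ b ∈ (g ξ).1 \ R, ∀ a ∈ (g η).1 \ R, b < a := by
    intro ξ η hξη b hb a ha
    by_contra hcon
    exact hfree ξ η hξη (Or.inr ⟨a, ha, b, hb, not_lt.1 hcon⟩)
  have hrange : ∀ ξ, ∀ a ∈ (g ξ).1 \ R, ∃ i, ((g ξ).1 \ R).orderEmbOfFin (hcard ξ) i = a := by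
    intro ξ a ha
    have : a ∈ range (((g ξ).1 \ R).orderEmbOfFin (hcard ξ)) := by
      rw [Finset.range_orderEmbOfFin]
      exact ha
    exact this
  refine ⟨n, fun ξ i => ((g ξ).1 \ R).orderEmbOfFin (hcard ξ) i, ?_, ?_⟩
  · intro ξ η hξη i j
    exact hlt ξ η hξη _ (Finset.orderEmbOfFin_mem _ _ _) _ (Finset.orderEmbOfFin_mem _ _ _)
  · intro ξ η hξη
    have hne : g ξ ≠ g η := fun e => hfree ξ η hξη (Or.inl e.symm)
    have hinc := hA (g ξ) (hJA (hg ξ).1) (g η) (hJA (hg η).1) hne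
    have hna : ¬ Anti V (((g ξ).1 ∪ (g η).1 : Finset Om1) : Set Om1) := by
      intro ha
      exact hinc ⟨(g ξ).1 ∪ (g η).1, ha⟩ Finset.subset_union_left Finset.subset_union_right
    unfold Anti at hna
    push Not at hna
    obtain ⟨a, ha, b, hb, hab, hsub⟩ := hna
    rw [Finset.mem_coe, Finset.mem_union] at ha hb
    have hξη' : ∀ x, x ∈ (g ξ).1 → x ∉ (g η).1 → x ∈ (g ξ).1 \ R := fun x h1 h2 =>
      Finset.mem_sdiff.2 ⟨h1, fun h3 => h2 (hR _ (hg η).1 h3)⟩
    have hηξ' : ∀ x, x ∈ (g η).1 → x ∉ (g ξ).1 → x ∈ (g η).1 \ R := fun x h1 h2 =>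
      Finset.mem_sdiff.2 ⟨h1, fun h3 => h2 (hR _ (hg ξ).1 h3)⟩
    have c1 : ¬ (a ∈ (g ξ).1 ∧ b ∈ (g ξ).1) := fun h => (g ξ).2 a h.1 b h.2 hab hsub
    have c2 : ¬ (a ∈ (g η).1 ∧ b ∈ (g η).1) := fun h => (g η).2 a h.1 b h.2 hab hsub
    by_cases hax : a ∈ (g ξ).1
    · have hbx : b ∉ (g ξ).1 := fun h => c1 ⟨hax, h⟩
      have hby : b ∈ (g η).1 := hb.resolve_left hbx
      have hay : a ∉ (g η).1 := fun h => c2 ⟨h, hby⟩
      exact absurd hsub (hN a b (hlt ξ η hξη a (hξη' a hax hay) b (hηξ' b hby hbx)))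
    · have hay : a ∈ (g η).1 := ha.resolve_left hax
      have hby : b ∉ (g η).1 := fun h => c2 ⟨hay, h⟩
      have hbx : b ∈ (g ξ).1 := hb.resolve_right hby
      obtain ⟨i, hi⟩ := hrange ξ b (hξη' b hbx hby)
      obtain ⟨j, hj⟩ := hrange η a (hηξ' a hay hax)
      refine ⟨i, j, ?_⟩
      have h3 : V (((g η).1 \ R).orderEmbOfFin (hcard η) j) ⊆
          V (((g ξ).1 \ R).orderEmbOfFin (hcard ξ) i) := by
        rw [hi, hj]
        exact hsub
      exact h3

/-- The finite shrinking argument. -/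
theorem exists_pair (V : Om1 → Set X) {n : ℕ} (F : Om1 → Fin n → Om1)
    (hF : ∀ ξ η, ξ < η → ∃ i j, V (F η j) ⊆ V (F ξ i)) (D : Set X) :
    ∃ (i k : Fin n) (A B : Set Om1), ¬ A.Countable ∧ ¬ B.Countable ∧
      ∀ p ∈ D, ¬ {η ∈ A | p ∈ V (F η k)}.Countable → {ξ ∈ B | p ∉ V (F ξ i)}.Countable := by
  classical
  by_contra hcon
  push Not at hcon
  have key : ∀ S : Finset (Fin n × Fin n), ∃ A B : Set Om1, ¬ A.Countable ∧ ¬ B.Countable ∧
      ∀ q ∈ S, ∀ η ∈ A, ∀ ξ ∈ B, ¬ V (F η q.2) ⊆ V (F ξ q.1) := by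
    intro S
    induction S using Finset.induction_on with
    | empty =>
      exact ⟨univ, univ, Pool.Agent.W910.Hull.not_countable_univ,
        Pool.Agent.W910.Hull.not_countable_univ, fun q hq => by simp at hq⟩
    | insert q S _ ih =>
      obtain ⟨A, B, hA, hB, hAB⟩ := ih
      obtain ⟨p, _, h1, h2⟩ := hcon q.1 q.2 A B hA hB
      refine ⟨_, _, h1, h2, ?_⟩
      intro r hr η hη ξ hξ
      rcases Finset.mem_insert.1 hr with rfl | hr
      · exact fun hsub => hξ.2 (hsub hη.2)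
      · exact hAB r hr η hη.1 ξ hξ.1
  obtain ⟨A, B, hA, hB, hAB⟩ := key Finset.univ
  have hBne : B.Nonempty := by
    rw [nonempty_iff_ne_empty]
    rintro rfl
    exact hB countable_empty
  obtain ⟨ξ, hξ⟩ := hBne
  obtain ⟨η, hη, hlt⟩ := exists_gt_of_countable hA (countable_singleton ξ)
  obtain ⟨i, j, hij⟩ := hF ξ η (hlt ξ rfl)
  exact hAB (i, j) (Finset.mem_univ _) η hη ξ hξ hij

/-- First case of the countable chain condition. -/
theorem ccc_of_closure [TopologicalSpace X] (u : ℕ → X) (hu : DenseRange u) (V : Om1 → Set X)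
    (hV : ∀ α, IsOpen (V α)) (hN : ∀ α β, α < β → ¬ V α ⊆ closure (V β)) :
    IsCCC (Cond V) := by
  by_contra hcon
  obtain ⟨n, F, hF1, hF2⟩ := exists_tuples V
    (fun α β h hsub => hN α β h (hsub.trans subset_closure)) hcon
  obtain ⟨i, k, A, B, hA, hB, hp⟩ := exists_pair V F hF2 (range u)
  let E1 : Set Om1 := ⋃ m : {m : ℕ // {η ∈ A | u m ∈ V (F η k)}.Countable},
    {η ∈ A | u m.1 ∈ V (F η k)}
  let E2 : Set Om1 := ⋃ m : {m : ℕ // {ξ ∈ B | u m ∉ V (F ξ i)}.Countable},
    {ξ ∈ B | u m.1 ∉ V (F ξ i)}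
  have hE1 : E1.Countable := countable_iUnion fun m => m.2
  have hE2 : E2.Countable := countable_iUnion fun m => m.2
  obtain ⟨η, hη, hηE⟩ := exists_gt_of_countable hA hE1
  obtain ⟨ξ, hξ, hξE⟩ := exists_gt_of_countable hB (hE2.insert η)
  have hlt : η < ξ := hξE η (mem_insert _ _)
  apply hN (F η k) (F ξ i) (hF1 η ξ hlt k i)
  refine (hu.open_subset_closure_inter (hV _)).trans (closure_mono ?_)
  rintro _ ⟨hm, m, rfl⟩
  have h1 : ¬ {η ∈ A | u m ∈ V (F η k)}.Countable := by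
    intro hc
    exact lt_irrefl η (hηE η (mem_iUnion.2 ⟨⟨m, hc⟩, hη, hm⟩))
  have h2 := hp (u m) (mem_range_self m) h1
  by_contra h3
  exact lt_irrefl ξ (hξE ξ (mem_insert_of_mem _ (mem_iUnion.2 ⟨⟨m, h2⟩, hξ, h3⟩)))

/-- Second case of the countable chain condition: decreasing sequences of open sets of length
`ω₁` are eventually constant, and there is no uncountable incomparable subfamily. -/
theorem ccc_of_stable [TopologicalSpace X] (V : Om1 → Set X) (hV : ∀ α, IsOpen (V α))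
    (hN : ∀ α β, α < β → ¬ V α ⊆ V β) (hAC : ∀ Z : Set Om1, ¬ Z.Countable → ¬ Anti V Z)
    (hHS : ∀ U : Om1 → Set X, (∀ ν, IsOpen (U ν)) → Antitone U → ∃ ν₀, ∀ ν, ν₀ ≤ ν → U ν₀ ⊆ U ν) :
    IsCCC (Cond V) := by
  classical
  by_contra hcon
  obtain ⟨n, F, hF1, hF2⟩ := exists_tuples V hN hcon
  obtain ⟨i, k, A, B, hA, hB, hp⟩ := exists_pair V F hF2 univ
  obtain ⟨ν₀, hν₀⟩ := hHS (fun ν => ⋃ η ∈ {η ∈ A | ν ≤ η}, V (F η k))
    (fun ν => isOpen_biUnion fun η _ => hV _) (by
      intro ν μ hνμ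
      exact biUnion_subset_biUnion_left fun η hη => ⟨hη.1, hνμ.trans hη.2⟩)
  set S : Set X := ⋃ η ∈ {η ∈ A | ν₀ ≤ η}, V (F η k) with hS
  have h1 : ∀ p ∈ S, {ξ ∈ B | p ∉ V (F ξ i)}.Countable := by
    intro p hpS
    apply hp p (mem_univ _)
    intro hc
    obtain ⟨ν, _, hν⟩ := exists_gt_of_countable
      Pool.Agent.W910.Hull.not_countable_univ (hc.insert ν₀)
    have h2 := hν₀ ν (hν ν₀ (mem_insert _ _)).le hpS
    rw [mem_iUnion₂] at h2
    obtain ⟨η, hη, hpη⟩ := h2
    exact absurd (hν η (mem_insert_of_mem _ ⟨hη.1, hpη⟩)) (not_lt.2 hη.2)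
  have h2 : {ξ ∈ B | ¬ S ⊆ V (F ξ i)}.Countable := by
    by_contra hunc
    have hpt : ∀ ξ, ∃ p, ¬ S ⊆ V (F ξ i) → p ∈ S ∧ p ∉ V (F ξ i) := by
      intro ξ
      by_cases h : S ⊆ V (F ξ i)
      · have hne : S.Nonempty ∨ ¬ S.Nonempty := em _
        rcases isEmpty_or_nonempty X with hX | hX
        · exfalso
          apply hunc
          have : {ξ ∈ B | ¬ S ⊆ V (F ξ i)} = ∅ := by
            rw [eq_empty_iff_forall_notMem]
            rintro ζ ⟨_, hζ⟩
            exact hζ fun x => (hX.false x).elim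
          rw [this]
          exact countable_empty
        · exact ⟨Classical.arbitrary X, fun h' => absurd h h'⟩
      · obtain ⟨p, h3, h4⟩ := not_subset.1 h
        exact ⟨p, fun _ => ⟨h3, h4⟩⟩
    choose pt hpt using hpt
    obtain ⟨g, hg, hfree⟩ := exists_free hunc
      (fun ξ => {ξ' ∈ B | pt ξ ∉ V (F ξ' i)} ∪ Iic ξ) (by
        intro ξ hξ
        exact ((h1 _ (hpt ξ hξ.2).1).union (countable_Iic ξ)).mono inter_subset_right)
    have hlt : ∀ α β, α < β → g α < g β := by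
      intro α β h
      by_contra h3
      exact hfree α β h (Or.inr (not_lt.1 h3))
    have hmono : ∀ α β, α < β → F (g α) i < F (g β) i := fun α β h =>
      hF1 _ _ (hlt α β h) i i
    have hinj : Function.Injective fun α => F (g α) i := by
      intro α β h
      rcases lt_trichotomy α β with h3 | h3 | h3
      · exact absurd h (hmono α β h3).ne
      · exact h3
      · exact absurd h (hmono β α h3).ne'
    apply hAC _ (not_countable_range hinj)
    rintro _ ⟨α, rfl⟩ _ ⟨β, rfl⟩ hne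
    have hne' : α ≠ β := fun e => hne (by rw [e])
    rcases lt_or_gt_of_ne hne' with h3 | h3
    · exact hN _ _ (hmono α β h3)
    · intro hsub
      apply (hpt (g β) (hg β).2).2
      apply hsub
      by_contra h4
      exact hfree β α h3 (Or.inl ⟨(hg α).1, h4⟩)
  obtain ⟨η, hη, hηE⟩ := exists_gt_of_countable hA (countable_singleton ν₀)
  obtain ⟨ξ, hξ, hξE⟩ := exists_gt_of_countable hB (h2.insert η)
  have hlt : η < ξ := hξE η (mem_insert _ _)
  apply hN (F η k) (F ξ i) (hF1 η ξ hlt k i)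
  have h3 : S ⊆ V (F ξ i) := by
    by_contra h4
    exact lt_irrefl ξ (hξE ξ (mem_insert_of_mem _ ⟨hξ, h4⟩))
  refine Subset.trans ?_ h3
  exact subset_biUnion_of_mem (u := fun η => V (F η k)) (show η ∈ {η ∈ A | ν₀ ≤ η} from
    ⟨hη, (hηE ν₀ rfl).le⟩)

end anti

end Pool.Agent.Y444.NB
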