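import Pool.Agent.Y444.NB.Comb

/-!
# Noetherian bases of countable rank under Martin's axiom

Under `MA_{ℵ₁}`, a separable regular space with a base of countable rank is hereditarily separable,
and every Noetherian base of countable rank of such a space is countable.
-/

set_option autoImplicit false

namespace Pool.Agent.Y444.NB

open Set Cardinal Topology TopologicalSpace Pool.Agent.W684 Pool.Agent.W910.Hull

/-- A family of sets is incomparable if no member of it is contained in a different member. -/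
def Incomparable {X : Type*} (𝒜 : Set (Set X)) : Prop :=
  ∀ A ∈ 𝒜, ∀ B ∈ 𝒜, A ≠ B → ¬ A ⊆ B

/-- `Γ` has countable rank: for every point `x`, every incomparable subfamily of `Γ` whose members
all contain `x` is countable. -/
def CountableRank {X : Type*} (Γ : Set (Set X)) : Prop :=
  ∀ x : X, ∀ 𝒜 ⊆ Γ, (∀ A ∈ 𝒜, x ∈ A) → Incomparable 𝒜 → 𝒜.Countable

/-- `Γ` is Noetherian: it contains no infinite strictly increasing sequence. -/
def Noetherian {X : Type*} (Γ : Set (Set X)) : Prop :=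
  ¬ ∃ A : ℕ → Set X, (∀ n, A n ∈ Γ) ∧ ∀ n, A n ⊂ A (n + 1)

section

variable {X : Type*}

theorem Anti.countable {V : Om1 → Set X} {ℬ : Set (Set X)} (hV : ∀ α, V α ∈ ℬ)
    (hanti : ∀ 𝒜 ⊆ ℬ, Incomparable 𝒜 → 𝒜.Countable) {Z : Set Om1} (hZ : Anti V Z) :
    Z.Countable := by
  have hinj : InjOn V Z := by
    intro a ha b hb hab
    by_contra hne
    exact hZ a ha b hb hne hab.subset
  apply countable_of_injective_of_countable_image hinj
  apply hanti
  · rintro _ ⟨a, _, rfl⟩
    exact hV a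
  · rintro _ ⟨a, ha, rfl⟩ _ ⟨b, hb, rfl⟩ hne
    exact hZ a ha b hb fun e => hne (by rw [e])

/-- In a separable space, a family of open sets of countable rank has no uncountable incomparable
subfamily at all. -/
theorem CountableRank.anti [TopologicalSpace X] (u : ℕ → X) (hu : DenseRange u) {ℬ : Set (Set X)}
    (hO : ∀ B ∈ ℬ, IsOpen B) (hR : CountableRank ℬ) :
    ∀ 𝒜 ⊆ ℬ, Incomparable 𝒜 → 𝒜.Countable := by
  intro 𝒜 h𝒜 hinc
  have h1 : ∀ i, {A ∈ 𝒜 | u i ∈ A}.Countable := by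
    intro i
    apply hR (u i) _ (fun A hA => h𝒜 hA.1) (fun A hA => hA.2)
    intro A hA B hB
    exact hinc A hA.1 B hB.1
  refine ((countable_singleton (∅ : Set X)).union (countable_iUnion h1)).mono ?_
  intro A hA
  rcases A.eq_empty_or_nonempty with h | h
  · exact Or.inl h
  · obtain ⟨i, hi⟩ := hu.exists_mem_open (hO A (h𝒜 hA)) h
    exact Or.inr (mem_iUnion.2 ⟨i, hA, hi⟩)

/-- Under `MA_{ℵ₁}`: decreasing `ω₁`-sequences of open sets are eventually constant. -/
theorem stable_of_MA (hMA : MartinAxiomAleph1) [TopologicalSpace X] [RegularSpace X] (u : ℕ → X)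
    (hu : DenseRange u) (ℬ : Set (Set X)) (hBase : IsTopologicalBasis ℬ)
    (hanti : ∀ 𝒜 ⊆ ℬ, Incomparable 𝒜 → 𝒜.Countable) (U : Om1 → Set X) (hU : ∀ ν, IsOpen (U ν))
    (hUa : Antitone U) : ∃ ν₀, ∀ ν, ν₀ ≤ ν → U ν₀ ⊆ U ν := by
  by_contra hcon
  push Not at hcon
  choose nx hnx1 hnx2 using hcon
  have h1 : ∀ ν, ∃ p, p ∈ U ν ∧ p ∉ U (nx ν) := fun ν => not_subset.1 (hnx2 ν)
  choose p hp1 hp2 using h1
  have h2 : ∀ ν, ∃ B ∈ ℬ, p ν ∈ B ∧ closure B ⊆ U ν := fun ν =>
    hBase.exists_closure_subset ((hU ν).mem_nhds (hp1 ν))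
  choose B hB hpB hBU using h2
  obtain ⟨g, -, hg⟩ := exists_free (W := (univ : Set Om1)) Pool.Agent.W910.Hull.not_countable_univ
    (fun ν => Iic (nx ν)) (fun ν _ => (countable_Iic (nx ν)).mono inter_subset_right)
  have hN : ∀ α β, α < β → ¬ B (g α) ⊆ closure (B (g β)) := by
    intro α β hαβ hsub
    have h3 : nx (g α) < g β := not_le.1 (hg α β hαβ)
    exact hp2 (g α) (hUa h3.le (hBU _ (hsub (hpB _))))
  obtain ⟨Z, hZ, hZa⟩ := exists_anti hMA (fun α => B (g α))
    (ccc_of_closure u hu _ (fun α => hBase.isOpen (hB _)) hN)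
  exact hZ (hZa.countable (fun α => hB _) hanti)

/-- A Noetherian family: every nonempty subfamily has a maximal element. -/
theorem Noetherian.exists_max {ℬ : Set (Set X)} (h : Noetherian ℬ) {S : Set (Set X)} (hS : S ⊆ ℬ)
    (hne : S.Nonempty) : ∃ M ∈ S, ∀ W ∈ S, M ⊆ W → M = W := by
  have hwf : WellFounded (fun a b : ℬ => (b : Set X) ⊂ a) := by
    rw [wellFounded_iff_isEmpty_descending_chain]
    exact ⟨fun x => h ⟨fun k => (x.1 k : Set X), fun k => (x.1 k).2, fun k => x.2 k⟩⟩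
  obtain ⟨A, hA⟩ := hne
  obtain ⟨M, hM, hmax⟩ := hwf.has_min {Y : ℬ | (Y : Set X) ∈ S} ⟨⟨A, hS hA⟩, hA⟩
  refine ⟨M.1, hM, fun W hW hMW => ?_⟩
  by_contra hne
  exact hmax ⟨W, hS hW⟩ hW (hMW.ssubset_of_ne hne)

/-- An uncountable Noetherian family contains a sequence of length `ω₁` without increasing
pairs. -/
theorem Noetherian.exists_seq {ℬ : Set (Set X)} (h : Noetherian ℬ) (hunc : ¬ ℬ.Countable) :
    ∃ V : Om1 → Set X, (∀ α, V α ∈ ℬ) ∧ ∀ α β, α < β → ¬ V α ⊆ V β := by
  classical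
  let pick : Set (Set X) → Set X := fun S =>
    if h : ∃ M ∈ ℬ \ S, ∀ W ∈ ℬ \ S, M ⊆ W → M = W then h.choose else ∅
  have hex : ∀ α : Om1, ∃ M ∈ ℬ \ (seq pick '' Iio α), ∀ W ∈ ℬ \ (seq pick '' Iio α),
      M ⊆ W → M = W := by
    intro α
    apply h.exists_max sdiff_subset
    rw [nonempty_iff_ne_empty]
    intro he
    apply hunc
    rw [sdiff_eq_empty] at he
    exact ((countable_Iio α).image _).mono he
  have hV : ∀ α, seq pick α ∈ ℬ \ (seq pick '' Iio α) ∧ ∀ W ∈ ℬ \ (seq pick '' Iio α),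
      seq pick α ⊆ W → seq pick α = W := by
    intro α
    have h1 : seq pick α = (hex α).choose := by
      rw [seq_eq]
      simp only [pick]
      rw [dif_pos (hex α)]
    rw [h1]
    exact (hex α).choose_spec
  refine ⟨seq pick, fun α => (hV α).1.1, fun α β hαβ hsub => ?_⟩
  have h1 : seq pick β ∈ ℬ \ (seq pick '' Iio α) := by
    refine ⟨(hV β).1.1, ?_⟩
    rintro ⟨γ, hγ, he⟩
    exact (hV β).1.2 ⟨γ, lt_trans hγ hαβ, he⟩
  have h2 := (hV α).2 _ h1 hsub
  exact (hV β).1.2 ⟨α, hαβ, h2⟩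

/-- **Main theorem.** Under `MA_{ℵ₁}`, every Noetherian base of countable rank of a separable
regular space is countable. -/
theorem countable_base (hMA : MartinAxiomAleph1) [TopologicalSpace X] [RegularSpace X]
    [SeparableSpace X] {ℬ : Set (Set X)} (hBase : IsTopologicalBasis ℬ) (hN : Noetherian ℬ)
    (hR : CountableRank ℬ) : ℬ.Countable := by
  by_contra hunc
  have hX : Nonempty X := by
    by_contra hX
    rw [not_nonempty_iff] at hX
    exact hunc (Set.to_countable ℬ)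
  obtain ⟨u, hu⟩ := exists_dense_seq X
  have hanti := hR.anti u hu fun B hB => hBase.isOpen hB
  obtain ⟨V, hV, hVN⟩ := hN.exists_seq hunc
  have hccc : IsCCC (Cond V) := ccc_of_stable V (fun α => hBase.isOpen (hV α)) hVN
    (fun Z hZ hZa => hZ (hZa.countable hV hanti))
    (fun U hU hUa => stable_of_MA hMA u hu ℬ hBase hanti U hU hUa)
  obtain ⟨Z, hZ, hZa⟩ := exists_anti hMA V hccc
  exact hZ (hZa.countable hV hanti)

end

end Pool.Agent.Y444.NB
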